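import Mathlib
import Pool.Prelude.Def_F_c31e40fa
import Pool.Agent.H206.RayH

/-!
# Almost all and generic boundary points of the Multibrot sets are not cut points

Let `M_d` be the Multibrot set of degree `d ≥ 2` and `ψ` its exterior map, the conformal map of
`{|w| > 1}` onto the complement of `M_d`. A boundary point `c` of `M_d` is called simple if

* `M_d` is locally connected at `c`;
* `c` is in the impression of exactly one angle `ζ`, this impression is `{c}`, and exactly one external
  ray, the ray of `ζ`, lands at `c`;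
* `c` is not a cut point: `M_d \ {c}` is connected.

**Theorem.** Almost every external ray lands at a simple boundary point, with the Lyapunov exponent
`log d`, and the simple points contain a dense `G_δ` subset of the boundary of `M_d`. So the cut points
and the points at which two external rays land form a set of harmonic measure zero, and a meager subset
of the boundary.

Method. Suppose that two rays land at a typical point `c₀`. Then there are two disjoint images of half
strips which run to `c₀`, and the comparison of their areas in the logarithmic metric with the area of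
a ring shows that the harmonic measure of the disc of radius `r` about `c₀` is at most `r`, up to a
power of `log (1 / r)`. (The exponents alone allow two rays; the sharp bounds for the heights of the
points at the distance `r` are used here.) By the law of the iterated logarithm this is false for some
arbitrarily small `r`. The connectedness of `M_d \ {c}` follows because the impressions of the other
angles form a connected set. For the generic statement one uses that near a typical point all
impressions are small and come from nearby angles.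
-/

set_option autoImplicit false

open MeasureTheory Filter Metric Topology Set

namespace Pool.Agent.Results.MP_fcb70f_an.CutPointsAreRare

open N62a1eb23
open Pool.Agent.H713R2 (IsExteriorMap)

/-- The impression of `ζ`: all limits of `ψ (w n)` for sequences `w n → ζ` with `|w n| > 1`. -/
def impression (ψ : ℂ → ℂ) (ζ : ℂ) : Set ℂ := {c | MapClusterPt c (𝓝[{w | 1 < ‖w‖}] ζ) ψ}

/-- The external ray of `ζ` lands at `c`. -/
def Lands (ψ : ℂ → ℂ) (ζ c : ℂ) : Prop := Tendsto (fun r : ℝ => ψ (r * ζ)) (𝓝[>] 1) (𝓝 c)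

/-- The Multibrot set is locally connected at `x`: any two points of it in a small disc about `x` are
in a continuum in it of small size. -/
def LocallyConnectedAt (d : ℕ) (x : ℂ) : Prop :=
  ∀ η : ℝ, 0 < η → ∃ δ : ℝ, 0 < δ ∧ ∀ y ∈ multibrotSet d, ∀ z ∈ multibrotSet d,
    ‖y - x‖ < δ → ‖z - x‖ < δ → ∃ S : Set ℂ, S ⊆ multibrotSet d ∧ IsCompact S ∧ IsConnected S ∧
      y ∈ S ∧ z ∈ S ∧ S ⊆ ball x η

/-- The simple boundary points. -/
def Simple (d : ℕ) (ψ : ℂ → ℂ) (c : ℂ) : Prop :=
  c ∈ frontier (multibrotSet d) ∧ LocallyConnectedAt d c ∧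
  (∃ ζ : ℂ, ‖ζ‖ = 1 ∧ impression ψ ζ = {c} ∧ Lands ψ ζ c ∧
    (∀ ζ' : ℂ, ‖ζ'‖ = 1 → c ∈ impression ψ ζ' → ζ' = ζ) ∧
    ∀ ζ' : ℂ, ‖ζ'‖ = 1 → Lands ψ ζ' c → ζ' = ζ) ∧
  IsConnected (multibrotSet d \ {c})

/-- The critical value `c` has the Lyapunov exponent `χ` for `z ^ d + c`. -/
def HasLyapunov (d : ℕ) (χ : ℝ) (c : ℂ) : Prop :=
  Tendsto (fun n : ℕ => Real.log ‖deriv ((fun z : ℂ => z ^ d + c)^[n]) c‖ / n) atTop (𝓝 χ)

/-- rays approach their end points from the exterior -/
theorem ray_tendsto {ζ : ℂ} (hζ : ‖ζ‖ = 1) : Tendsto (fun r : ℝ => (r : ℂ) * ζ) (𝓝[>] 1)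
    (𝓝[{w | 1 < ‖w‖}] ζ) := by
  rw [tendsto_nhdsWithin_iff]
  constructor
  · have h1 : Continuous fun r : ℝ => (r : ℂ) * ζ := by fun_prop
    have h2 := h1.tendsto 1
    rw [Complex.ofReal_one, one_mul] at h2
    exact h2.mono_left nhdsWithin_le_nhds
  · filter_upwards [self_mem_nhdsWithin] with r hr
    have hr : 1 < r := hr
    show 1 < ‖(r : ℂ) * ζ‖
    rw [norm_mul, hζ, mul_one, Complex.norm_real, Real.norm_of_nonneg (by linarith)]
    exact hr

theorem simple_of_op {d : ℕ} (hd : 2 ≤ d) {ψ : ℂ → ℂ} (hψ : IsExteriorMap (multibrotSet d) ψ) {c : ℂ}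
    (hc : ∀ k : ℕ, c ∈ Pool.Agent.H206.Ray.Op d ψ (1 / ((k : ℝ) + 1))) : Simple d ψ c := by
  obtain ⟨hfr, hfine, ⟨ζ, hζ, himp, huni⟩, hconn⟩ := Pool.Agent.H206.Ray.of_Op hd hψ hc
  have hcM : c ∈ multibrotSet d :=
    (Pool.Agent.H712R2.isCompact_multibrot hd).isClosed.frontier_subset hfr
  have hlim := Pool.Agent.H206.Ray.lim_of_imp
    (fun w hw => Pool.Agent.R240.Ext.psi_le hd hψ hw) hζ himp
  refine ⟨hfr, fun η hη => Pool.Agent.H206.lc_of_fine hcM hfine hη,
    ⟨ζ, hζ, himp, hlim.comp (ray_tendsto hζ), huni, fun ζ' hζ' hland => huni ζ' hζ' ?_⟩, hconn⟩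
  exact (hland.mapClusterPt).of_comp (ray_tendsto hζ')

/-- **Theorem.** Almost every external ray of the Multibrot set lands at a simple boundary point, and
the simple points contain a dense `G_δ` subset of the boundary. -/
theorem result (d : ℕ) (hd : 2 ≤ d) :
    (∃ ψ : ℂ → ℂ, IsExteriorMap (multibrotSet d) ψ) ∧
    ∀ ψ : ℂ → ℂ, IsExteriorMap (multibrotSet d) ψ →
      (∀ᵐ θ : ℝ, ∃ c : ℂ, Lands ψ (Complex.exp (θ * Complex.I)) c ∧ Simple d ψ c ∧
        HasLyapunov d (Real.log d) c) ∧
      ∃ G : Set ℂ, IsGδ G ∧ frontier (multibrotSet d) ⊆ closure G ∧ ∀ c ∈ G, Simple d ψ c := by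
  obtain ⟨β, hβ⟩ := Pool.Agent.H713R2.exists_beta (d := d) hd
  refine ⟨⟨_, Pool.Agent.H713R2.exteriorMap_of_beta hβ⟩, ?_⟩
  intro ψ hψ
  refine ⟨?_, ⋂ k : ℕ, Pool.Agent.H206.Ray.Op d ψ (1 / ((k : ℝ) + 1)),
    IsGδ.iInter_of_isOpen fun k => Pool.Agent.H206.Ray.Op_open d ψ _,
    Pool.Agent.H206.Ray.dense_Op hd hψ, fun c hc => simple_of_op hd hψ (mem_iInter.1 hc)⟩
  filter_upwards [Pool.Agent.H206.Ray.ae_alone hd hψ] with θ h
  obtain ⟨c₀, -, hland, hL, huni⟩ := h
  exact ⟨c₀, hland, simple_of_op hd hψ fun k =>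
    Pool.Agent.H206.Ray.Op_of_lyap hd hψ hL huni (by positivity), hL.2.2⟩

end Pool.Agent.Results.MP_fcb70f_an.CutPointsAreRare
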