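import Mathlib
import Pool.Prelude.Def_F_c31e40fa
import Pool.Agent.H439.MC.Hmu6

/-!
# MP_fcb70f_an: the fluctuations of the harmonic measure of the Multibrot sets

Let `M` be the Multibrot set of degree `d ≥ 2` and `ψ` its exterior map (`M` is locally connected if
and only if `ψ` extends continuously to the unit circle). Almost every external ray lands, at `c(θ)`
say, and the law of `c(θ)` for a random angle `θ` is the harmonic measure `ω` of `M`. We prove a
central limit theorem for `log ω(D)`, where `D` is the disc of radius `r → 0` about a random boundary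
parameter, and that at the angles for which the limit variance is positive (they form a set of
positive measure) the measure of the discs, the speed of landing of the ray, the distance from `M` to
the ray and the growth of the derivatives along the critical orbit all oscillate beyond the factors
`exp (± A √log (1/r))` and `exp (± A √n)`, for every `A`; the landing points of these angles lie in a
set whose Hausdorff measure is zero for each of the gauge functions `t exp (A √log (1/t))`.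
-/

set_option autoImplicit false

open Filter Topology Set Metric MeasureTheory N62a1eb23
open scoped ENNReal

namespace Pool.Agent.Results.MP_fcb70f_an.HarmonicMeasureLaw

open Pool.Agent.H713R2 (IsExteriorMap)
open ProbabilityTheory (gaussianReal)

/-- The point `R e^{iθ}`. -/
noncomputable def pt (R θ : ℝ) : ℂ := R * Complex.exp (θ * Complex.I)

/-- The polynomial `z ^ d + c`. -/
def f (d : ℕ) (c : ℂ) : ℂ → ℂ := fun z => z ^ d + c

/-- The external ray of angle `θ` (in radians) lands at `c θ`, for almost every `θ`. -/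
def Lands (ψ : ℂ → ℂ) (c : ℝ → ℂ) : Prop :=
  ∀ᵐ θ : ℝ, Tendsto (fun R : ℝ => ψ (pt R θ)) (𝓝[>] 1) (𝓝 (c θ))

/-- The harmonic measure (normalised to total mass `1`) of the closed disc of centre `x` and radius
`r`: the proportion of the angles `t` in `(0, 2π]` with `|c(t) - x| ≤ r`. -/
noncomputable def harm (c : ℝ → ℂ) (x : ℂ) (r : ℝ) : ℝ :=
  (2 * Real.pi)⁻¹ * volume.real {t ∈ Ioc 0 (2 * Real.pi) | ‖c t - x‖ ≤ r}

/-- The function `E A t = exp (A √log (1/t))`. For `A > 0` it tends to infinity as `t → 0+`, more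
slowly than every power `t ^ (-ε)`. -/
noncomputable def E (A t : ℝ) : ℝ := Real.exp (A * √(Real.log (1 / t)))

/-- The Hausdorff measure on the plane for the gauge function `t ↦ t exp (A √log (1/t))`. -/
noncomputable def hausdorff (A : ℝ) : Measure ℂ :=
  Measure.mkMetric fun t : ℝ≥0∞ => t * ENNReal.ofReal (E A t.toReal)

/-- **Fluctuations of harmonic measure.** Let `M` be the Multibrot set of degree `d ≥ 2`. Its exterior
map `ψ` exists and almost every ray lands, at `c(θ)`. There is a function `σ ≥ 0` on `(0, 2π]`, square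
integrable and with positive integral, such that

(1) for every integrable `φ` and every bounded continuous `g : ℝ → ℝ`, as `r → 0+`,
`∫ φ(θ) g ((log ω(D(c(θ), r)) - log r) / √(log (1/r))) dθ → ∫ φ(θ) E g (σ(θ) x) dθ`, `x` standard normal;

for almost every `θ` with `σ(θ) > 0` and for every `A`,

(2) `ω(D(c(θ), r)) ≥ r exp (A √log (1/r))` for arbitrarily small `r > 0`,

(3) `ω(D(c(θ), r)) ≤ r exp (- A √log (1/r))` for arbitrarily small `r > 0`,

(4) `|ψ(R e^{iθ}) - c(θ)| ≤ (R - 1) exp (- A √log (1/(R - 1)))` for `R` arbitrarily close to `1`,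

(5) `dist (ψ(R e^{iθ}), M) ≥ (R - 1) exp (A √log (1/(R - 1)))` for `R` arbitrarily close to `1`,

(6) `log |(f^n)'(c(θ))| ≥ n log d + A √n` for infinitely many `n`, where `f z = z ^ d + c(θ)`,

(7) `log |(f^n)'(c(θ))| ≤ n log d - A √n` for infinitely many `n`;

(8) there is a measurable subset `K` of the boundary of `M` which contains `c(θ)` for almost every `θ`
with `σ(θ) > 0` and whose Hausdorff measure for the gauge function `t exp (A √log (1/t))` is zero for
each `A ≥ 0`. -/
theorem result (d : ℕ) (hd : 2 ≤ d) :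
    (∃ ψ : ℂ → ℂ, IsExteriorMap (multibrotSet d) ψ) ∧
    ∃ σ : ℝ → ℝ, Measurable σ ∧ (∀ θ, 0 ≤ σ θ) ∧
      IntervalIntegrable (fun θ => σ θ ^ 2) volume 0 (2 * Real.pi) ∧
      0 < ∫ θ in (0 : ℝ)..2 * Real.pi, σ θ ∧
      ∀ ψ : ℂ → ℂ, IsExteriorMap (multibrotSet d) ψ →
        (∃ c : ℝ → ℂ, Lands ψ c) ∧
        ∀ c : ℝ → ℂ, Lands ψ c →
          (∀ φ : ℝ → ℝ, IntervalIntegrable φ volume 0 (2 * Real.pi) →
            ∀ g : BoundedContinuousFunction ℝ ℝ,
              Tendsto (fun r : ℝ => ∫ θ in (0 : ℝ)..2 * Real.pi,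
                φ θ * g ((Real.log (harm c (c θ) r) - Real.log r) / √(Real.log (1 / r)))) (𝓝[>] 0)
                (𝓝 (∫ θ in (0 : ℝ)..2 * Real.pi, φ θ * ∫ x, g (σ θ * x) ∂(gaussianReal 0 1)))) ∧
          (∀ᵐ θ : ℝ, θ ∈ Ioc 0 (2 * Real.pi) → 0 < σ θ → ∀ A : ℝ,
            (∃ᶠ r : ℝ in 𝓝[>] 0, r * E A r ≤ harm c (c θ) r) ∧
            (∃ᶠ r : ℝ in 𝓝[>] 0, harm c (c θ) r ≤ r * E (-A) r) ∧
            (∃ᶠ R : ℝ in 𝓝[>] 1, ‖ψ (pt R θ) - c θ‖ ≤ (R - 1) * E (-A) (R - 1)) ∧
            (∃ᶠ R : ℝ in 𝓝[>] 1, (R - 1) * E A (R - 1) ≤ infDist (ψ (pt R θ)) (multibrotSet d)) ∧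
            (∃ᶠ n : ℕ in atTop, n * Real.log d + A * √n ≤ Real.log ‖deriv ((f d (c θ))^[n]) (c θ)‖) ∧
            (∃ᶠ n : ℕ in atTop, Real.log ‖deriv ((f d (c θ))^[n]) (c θ)‖ ≤ n * Real.log d - A * √n)) ∧
          ∃ K : Set ℂ, MeasurableSet K ∧ K ⊆ frontier (multibrotSet d) ∧
            (∀ᵐ θ : ℝ, θ ∈ Ioc 0 (2 * Real.pi) → 0 < σ θ → c θ ∈ K) ∧
            ∀ A : ℝ, 0 ≤ A → hausdorff A K = 0 := by
  obtain ⟨β, hβ⟩ := Pool.Agent.H713R2.exists_beta (d := d) hd
  refine ⟨⟨_, Pool.Agent.H713R2.exteriorMap_of_beta hβ⟩, ?_⟩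
  obtain ⟨σ, h1, h2, h3, h4, h5⟩ := Pool.Agent.H439.MC.hm_final hd hβ
  refine ⟨σ, h1, h2, h3, h4, ?_⟩
  intro ψ hψ
  refine ⟨Pool.Agent.H439.MC.exists_lands hd hβ hψ, ?_⟩
  intro c hc
  obtain ⟨k1, k2, k3, k4⟩ := h5 ψ hψ c hc
  refine ⟨k1, ?_, Pool.Agent.H439.MC.HighDens d (Pool.Agent.H439.MC.hmeas c) ∩ frontier (multibrotSet d),
    k4.inter isClosed_frontier.measurableSet, inter_subset_right, ?_,
    fun A hA => measure_mono_null inter_subset_left (k3 A hA)⟩
  · filter_upwards [k2] with θ hθ hθ1 hθ2 A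
    obtain ⟨m1, m2⟩ := hθ hθ1 hθ2
    obtain ⟨m3, m4⟩ := m2 A
    obtain ⟨m5, m6, m7, m8⟩ := m1.2.2 A
    refine ⟨m3, ?_, ?_, m6, m7, m8⟩
    · refine m4.mono fun r hr => hr.trans (le_of_eq ?_)
      unfold E
      rw [neg_mul]
    · refine m5.mono fun R hR => hR.trans (le_of_eq ?_)
      unfold E
      rw [neg_mul]
  · filter_upwards [k2] with θ hθ hθ1 hθ2
    exact (hθ hθ1 hθ2).1.2.1

end Pool.Agent.Results.MP_fcb70f_an.HarmonicMeasureLaw
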