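import Mathlib
import Pool.Prelude.Def_F_c31e40fa
import Pool.Agent.H205.JA9

/-!
# The Multibrot sets at the parameters with expanding critical orbit, uniformly in the degree

Let `c₀ ∈ M_n`, `f(z) = z ^ n + c₀`, and suppose that `|f'(f^j(c₀))| ≥ A ≥ K (1 + log n)` for all
`j ≥ 0`. Put `D_k = |(f^k)'(c₀)|`.

(1) `c₀` is the end of a curve `γ` from infinity in the complement of `M_n` all of whose points
satisfy the John condition `|γ(t) - c₀| ≤ K (1 + log (2 n / A)) dist(γ(t), M_n)`; if `A` is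
comparable to `n`, the John constant does not depend on `n`.

(2) On the side of `M_n` there is no such uniformity: for every `k ≥ 1` there are `x, y ∈ M_n` at
distance at most `K (1 + log (2 n / A)) / (n D_k)` of `c₀` and at distance at most `K / (n D_k)` of
each other, such that every connected subset of `M_n` which contains `y` and one of the points `x`,
`c₀` has diameter at least `min (log (n D_k), |f'(f^(k-1)(c₀))|) / (K n D_k)`.

The constant `K` does not depend on `n`, `c₀`, `A` and `k`.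
-/

set_option autoImplicit false
open Metric Set Filter Topology

namespace Pool.Agent.Results.MP_fcb70f_an.JohnAccessibility

open N62a1eb23

/-- The point `f^j(c)` of the critical orbit of `f(z) = z ^ n + c`; `c` is the critical value. -/
def orb (n : ℕ) (c : ℂ) (j : ℕ) : ℂ := (fun z => z ^ n + c)^[j] c

/-- The modulus `|f'(f^j(c))|`. -/
noncomputable def a (n : ℕ) (c : ℂ) (j : ℕ) : ℝ := n * ‖orb n c j‖ ^ (n - 1)

/-- The modulus `|(f^k)'(c)|`. -/
noncomputable def D (n : ℕ) (c : ℂ) (k : ℕ) : ℝ := ∏ j ∈ Finset.range k, a n c j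

theorem orb_eq (n : ℕ) (c : ℂ) (j : ℕ) : orb n c j = Pool.Agent.H205.AR.v n c j := by
  induction j with
  | zero => rfl
  | succ j ih =>
    unfold orb at *
    rw [Function.iterate_succ_apply', ih]
    rfl

theorem a_eq (n : ℕ) (c : ℂ) (j : ℕ) : a n c j = Pool.Agent.H205.AR.u n c j := by
  unfold a Pool.Agent.H205.AR.u
  rw [orb_eq]

theorem D_eq (n : ℕ) (c : ℂ) (k : ℕ) : D n c k = Pool.Agent.H205.AR.Q n c k := by
  unfold D Pool.Agent.H205.AR.Q
  exact Finset.prod_congr rfl fun j _ => a_eq n c j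

open Pool.Agent.H205 in
theorem result : ∃ K : ℝ, 0 < K ∧ ∀ n : ℕ, 2 ≤ n → ∀ c₀ ∈ multibrotSet n, ∀ A : ℝ,
    K * (1 + Real.log n) ≤ A → (∀ j, A ≤ a n c₀ j) →
    (∃ γ : ℝ → ℂ, ContinuousOn γ (Ici 0) ∧ γ 0 = c₀ ∧ Tendsto (fun t => ‖γ t‖) atTop atTop ∧
      ∀ t, 0 < t → γ t ∉ multibrotSet n ∧
        ∀ x ∈ multibrotSet n, ‖γ t - c₀‖ ≤ K * (1 + Real.log (2 * n / A)) * ‖x - γ t‖) ∧
    ∀ k : ℕ, 1 ≤ k → ∃ x ∈ multibrotSet n, ∃ y ∈ multibrotSet n, x ≠ y ∧ y ≠ c₀ ∧
      ‖x - c₀‖ ≤ K * (1 + Real.log (2 * n / A)) / (n * D n c₀ k) ∧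
      ‖y - c₀‖ ≤ K * (1 + Real.log (2 * n / A)) / (n * D n c₀ k) ∧
      ‖x - y‖ ≤ K / (n * D n c₀ k) ∧
      ∀ S ⊆ multibrotSet n, IsConnected S → x ∈ S ∨ c₀ ∈ S → y ∈ S →
        min (Real.log (n * D n c₀ k)) (a n c₀ (k - 1)) / (K * (n * D n c₀ k)) ≤ diam S := by
  refine ⟨2 ^ 20, by norm_num, ?_⟩
  intro n hn c₀ hc₀ A hA hj
  simp only [a_eq] at hj
  have h := JA.Hy_of hn hc₀ hA hj
  have hn0 := JA.n_pos h
  set M := 1 + Real.log (2 * n / A) with hM
  have hL := JA.L1 h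
  refine ⟨?_, ?_⟩
  · obtain ⟨γ, h1, h2, h3, h4⟩ := JA.john h
    refine ⟨γ, h1, h2, h3, fun t ht => ⟨fun hm => ?_, fun x hx => ?_⟩⟩
    · have h5 := JA.U_dist h (h4 t ht) hm
      rw [sub_self, norm_zero, mul_zero] at h5
      exact (h4 t ht).1 (by rw [← sub_eq_zero, ← norm_eq_zero]; exact le_antisymm h5 (norm_nonneg _))
    · refine (JA.U_dist h (h4 t ht) hx).trans ?_
      gcongr
      norm_num
  intro k hk
  obtain ⟨m, rfl⟩ : ∃ m, k = m + 1 := ⟨k - 1, by omega⟩
  obtain ⟨x, hx, y, hy, hxy, hyc, hxd, hyd, hd, hS⟩ := JA.separation' h m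
  have hQ := JA.Qp h (m + 1)
  have hQ1 := JA.Q_one h (m + 1)
  have hnge := JA.n_ge h
  have hX : 1 ≤ n * AR.Q n c₀ (m + 1) := by nlinarith
  have e1 : ∀ z : ℂ, ‖z - c₀‖ ≤ 50 * JA.tau n M / AR.Q n c₀ (m + 1) →
      ‖z - c₀‖ ≤ 2 ^ 20 * M / (n * D n c₀ (m + 1)) := by
    intro z hz
    rw [D_eq]
    refine hz.trans ?_
    have : 50 * JA.tau n M / AR.Q n c₀ (m + 1) = 50 * M / (n * AR.Q n c₀ (m + 1)) := by
      unfold JA.tau; field_simp
    rw [this]
    gcongr
    norm_num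
  refine ⟨x, hx, y, hy, hxy, hyc, e1 x hxd, e1 y hyd, ?_, ?_⟩
  · rw [D_eq]
    refine hd.trans ?_
    have : 20 * (1 / (n:ℝ)) / AR.Q n c₀ (m + 1) = 20 / (n * AR.Q n c₀ (m + 1)) := by field_simp
    rw [this]
    gcongr
    norm_num
  · intro S hSM hSc hxS hyS
    refine le_trans ?_ (hS S hSM hSc.isPreconnected hxS hyS)
    rw [D_eq, a_eq, Nat.add_sub_cancel]
    have hlog := Real.log_nonneg hX
    have hu := AR.u_nonneg n c₀ m
    set X := n * AR.Q n c₀ (m + 1) with hXdef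
    have hX0 : 0 < X := by linarith
    have h1 : min (Real.log X) (AR.u n c₀ m) / 2 ^ 20 ≤
        min (Real.log X / 16) (AR.u n c₀ m / 1000) / 2 := by
      rw [div_le_div_iff₀ (by norm_num) (by norm_num)]
      have h2 : min (Real.log X) (AR.u n c₀ m) ≤ Real.log X := min_le_left _ _
      have h3 : min (Real.log X) (AR.u n c₀ m) ≤ AR.u n c₀ m := min_le_right _ _
      have h4 : min (Real.log X) (AR.u n c₀ m) / 1000 ≤
          min (Real.log X / 16) (AR.u n c₀ m / 1000) := by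
        apply le_min
        · linarith
        · linarith
      have h5 : 0 ≤ min (Real.log X) (AR.u n c₀ m) := le_min hlog hu
      linarith
    calc min (Real.log X) (AR.u n c₀ m) / (2 ^ 20 * X)
        = min (Real.log X) (AR.u n c₀ m) / 2 ^ 20 / X := by rw [div_div]
      _ ≤ min (Real.log X / 16) (AR.u n c₀ m / 1000) / 2 / X := by gcongr
      _ = _ := by ring

end Pool.Agent.Results.MP_fcb70f_an.JohnAccessibility
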