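import Mathlib
import Pool.Prelude.Def_F_c31e40fa
import Pool.Agent.H206.Flt

/-!
# Infinitely renormalizable parameters with local connectivity and flatness

Let `M` be the Multibrot set of degree `d ≥ 2` and let `a` be a tip of `M`, that is a solution of
`a ^ (d - 1) = exp (2 π i / d) - 1` (`a = -2` if `d = 2`).

**Theorem.** In every disc about a boundary point of `M` there are uncountably many boundary points `x`
of `M` with the following properties.

* (Tower.) `x` is in a nested sequence of small copies of `M` of periods `n 0 ∣ n 1 ∣ n 2 ∣ ...`, and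
  these copies are asymptotically perfect: the `k`-th renormalised family is `1 / (k + 1)`-close to the
  family `z ^ d + κ` for all `|κ| ≤ k + 1`, `|z| ^ d ≤ k + 1`, and the component of `c k` of the
  interior of `M`, the small copy of `M`, the domains of renormalization and the basins of `0` are
  those of `M`, up to errors `1 / (k + 1)`; in the coordinates of the `k`-th copy `x` tends to the tip
  `a`.
* (Local connectivity.) `M` is locally connected at `x`.
* (Rays.) There is an angle whose impression contains `x`, and every impression which contains `x` is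
  the set `{x}`.
* (Flatness.) At `x` the harmonic measure and Green's function of the discs of radius `r` decay faster
  than every power of `r`, the derivatives with respect to the parameter grow subexponentially, and
  the boundary map (if it exists) has no modulus of continuity of Hölder type.

Method. A family which is close to `z ^ d + κ` has near the tip a parameter at which the critical point
is mapped by two steps to a repelling fixed point (`Pool.Agent.H206.tip`); it is a Misiurewicz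
parameter of `M` with a positive Lyapunov exponent (`Pool.Agent.H206.lyap_preper`). Near this parameter
there are perfect small copies of `M`, at which the impressions are small, and these are contained in
the first one (`Pool.Agent.H206.step`). Typical parameters are dense in the boundary
(`Pool.Agent.H206.typ_dense`), which starts the tower everywhere.
-/

set_option autoImplicit false

open MeasureTheory Filter Metric Topology Set

namespace Pool.Agent.Results.MP_fcb70f_an.TipTowers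

open N62a1eb23
open Pool.Agent.H713R2 (IsExteriorMap)

/-- The polynomial `z ^ d + c`. -/
def f (d : ℕ) (c : ℂ) : ℂ → ℂ := fun z => z ^ d + c

/-- The critical orbit as a function of the parameter. -/
def crit (d n : ℕ) (c : ℂ) : ℂ := (f d c)^[n] 0

/-- The parameters with attracting cycles. -/
def hyperbolic (d : ℕ) : Set ℂ := {c | ∃ m z, IsAttractingCycle (f d c) m z}

/-- The component of the interior of the Multibrot set which contains `c`. -/
def component (d : ℕ) (c : ℂ) : Set ℂ := connectedComponentIn (interior (multibrotSet d)) c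

/-- The renormalised map: `f ^ n` at the parameter `c + l κ`, in the coordinate `z / m`. -/
noncomputable def ren (d n : ℕ) (c l m κ : ℂ) : ℂ → ℂ :=
  fun z => (f d (c + l * κ))^[n] (m * z) / m

/-- The scales: `l` for the parameters and `m` for the dynamics. -/
def Scales (d n : ℕ) (c l m : ℂ) : Prop :=
  l ≠ 0 ∧ m ≠ 0 ∧ m ^ (d - 1) * deriv ((f d c)^[n - 1]) c = 1 ∧ l * deriv (crit d n) c = m

/-- In the disc of radius `S` the renormalised family is close, up to the relative error `δ`, to the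
family `z ^ d + κ`, and the orbits do not return earlier to the disc of radius `S |m| / 6`. -/
def Zone (d n : ℕ) (c l m : ℂ) (S δ : ℝ) : Prop :=
  ∀ κ z : ℂ, ‖κ‖ ≤ S → ‖z‖ ^ d ≤ S →
    ‖ren d n c l m κ z - (z ^ d + κ)‖ ≤ δ * (‖κ‖ + ‖z‖ ^ d) ∧
    ‖deriv (ren d n c l m κ) z - d * z ^ (d - 1)‖ ≤ δ * (d * ‖z‖ ^ (d - 1)) ∧
    ∀ j : ℕ, 0 < j → j < n → S * ‖m‖ / 6 ≤ ‖(f d (c + l * κ))^[j] (m * z)‖

/-- The component of `c` is close to the copy of the main component
`{w - w ^ d : d |w| ^ (d - 1) < 1}`, in which `w` is the attracting fixed point, and the attracting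
periodic points and their multipliers are close to `w` and to `d w ^ (d - 1)`. -/
def Shape (d n : ℕ) (c l m : ℂ) (τ : ℝ) : Prop :=
  (∀ w : ℂ, d * ‖w‖ ^ (d - 1) ≤ 1 - Real.exp (-(τ / 2)) → c + l * (w - w ^ d) ∈ component d c ∧
    ∃ z : ℂ, ‖z - w‖ ≤ Real.exp (-(τ / 2)) ∧ (f d (c + l * (w - w ^ d)))^[n] (m * z) = m * z ∧
      ‖deriv ((f d (c + l * (w - w ^ d)))^[n]) (m * z)‖ < 1 ∧
      ‖deriv ((f d (c + l * (w - w ^ d)))^[n]) (m * z) - d * w ^ (d - 1)‖ ≤ Real.exp (-(τ / 2))) ∧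
  ∀ b ∈ component d c, ∃ w : ℂ, d * ‖w‖ ^ (d - 1) < 1 ∧
    ‖b - (c + l * (w - w ^ d))‖ ≤ ‖l‖ * Real.exp (-τ)

/-- The small copy of the Multibrot set, magnified by `1 / l`: the parameters `κ` for which the
orbit of `0` under `f_(c + l κ) ^ n` stays in the disc of radius `ρ |m|`. -/
def copy (d n : ℕ) (c l m : ℂ) (ρ : ℝ) : Set ℂ :=
  {κ | ‖κ‖ ≤ ρ ^ d ∧ ∀ j : ℕ, ‖(f d (c + l * κ))^[n * j] 0‖ ≤ ρ * ‖m‖}

/-- The small copy is close to the Multibrot set, and isolated. -/
def Copies (d n : ℕ) (c l m : ℂ) (τ ε : ℝ) : Prop :=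
  (∀ ρ : ℝ, 3 ≤ ρ → ρ ^ (2 * d) ≤ Real.exp τ → copy d n c l m ρ = copy d n c l m 3) ∧
  copy d n c l m 3 ⊆ thickening ε (multibrotSet d) ∧
  closure (hyperbolic d) ⊆
    thickening ε {κ | κ ∈ copy d n c l m 3 ∧ c + l * κ ∈ hyperbolic d} ∧
  ∀ κ : ℂ, ball κ ε ⊆ hyperbolic d → κ ∈ copy d n c l m 3 ∧ c + l * κ ∈ hyperbolic d

/-- `h` is a proper map of degree at most `d` of `U` onto the larger set `V`, with the only critical
point `0`. -/
def PolynomialLike (d : ℕ) (h : ℂ → ℂ) (U V : Set ℂ) : Prop :=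
  IsOpen U ∧ Bornology.IsBounded U ∧ closure U ⊆ V ∧ h '' U = V ∧
    (∀ K ⊆ V, IsCompact K → IsCompact {z | z ∈ U ∧ h z ∈ K}) ∧
    (∀ w ∈ V, {z | z ∈ U ∧ h z = w}.encard ≤ d) ∧ ∀ z ∈ U, deriv h z = 0 → z = 0

/-- The maps `f_(c + l κ) ^ n` are polynomial-like, of a neighbourhood of `0` in the disc of radius
`(2 ρ) ^ (1 / d) |m|` onto the disc of radius `ρ |m|`. -/
def Renormalizable (d n : ℕ) (c l m : ℂ) (τ : ℝ) : Prop :=
  ∀ ρ : ℝ, 4 ≤ ρ → ρ ^ (2 * d) ≤ Real.exp τ → ∀ κ : ℂ, ‖κ‖ ≤ ρ - 1 →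
    ∃ U : Set ℂ, (0 : ℂ) ∈ U ∧ (∀ z ∈ U, ‖z‖ ^ d ≤ 2 * ρ * ‖m‖ ^ d) ∧
      PolynomialLike d ((f d (c + l * κ))^[n]) U (ball 0 (ρ * ‖m‖))

/-- The component, containing `0`, of the basin of the superattracting point `0` of `f_c ^ n`. -/
def basin (d n : ℕ) (c : ℂ) : Set ℂ :=
  connectedComponentIn {z | Tendsto (fun j : ℕ => (f d c)^[n * j] z) atTop (𝓝 0)} 0

/-- This component is close to a round disc. -/
def Round (d n : ℕ) (c m : ℂ) (τ : ℝ) : Prop :=
  ball 0 ((1 - Real.exp (-τ)) * ‖m‖) ⊆ basin d n c ∧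
    basin d n c ⊆ ball 0 ((1 + Real.exp (-τ)) * ‖m‖)

/-- The small copy of centre `c`, period `n` and scales `l` and `m` is perfect up to `ε`. -/
def Perfect (d : ℕ) (ε : ℝ) (n : ℕ) (c l m : ℂ) : Prop :=
  0 < n ∧ Function.minimalPeriod (f d c) 0 = n ∧ Scales d n c l m ∧
    (∃ S : ℝ, 1 / ε ≤ S ∧ Zone d n c l m S ε) ∧
    ∃ τ : ℝ, 1 / ε ≤ τ ∧ Shape d n c l m τ ∧ Copies d n c l m τ ε ∧
      Renormalizable d n c l m τ ∧ Round d n c m τ

/-- The small copy in the parameter plane. -/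
def smallCopy (d n : ℕ) (c l m : ℂ) : Set ℂ := {x | (x - c) / l ∈ copy d n c l m 3}

/-- `x` is the limit of a tower of asymptotically perfect small copies, and it tends to `a` in the
coordinates of these copies. -/
def Tower (d : ℕ) (a x : ℂ) : Prop :=
  ∃ (n : ℕ → ℕ) (c l m : ℕ → ℂ),
    (∀ k, n k ∣ n (k + 1) ∧ n k < n (k + 1)) ∧
    (∀ k : ℕ, Perfect d (1 / ((k : ℝ) + 1)) (n k) (c k) (l k) (m k)) ∧
    (∀ k, x ∈ smallCopy d (n k) (c k) (l k) (m k) ∧
      smallCopy d (n (k + 1)) (c (k + 1)) (l (k + 1)) (m (k + 1)) ⊆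
        smallCopy d (n k) (c k) (l k) (m k)) ∧
    (⋂ k, smallCopy d (n k) (c k) (l k) (m k)) = {x} ∧
    Tendsto (fun k => (x - c k) / l k) atTop (𝓝 a)

/-- The Multibrot set is locally connected at `x`: any two points of it in a small disc about `x` are
in a continuum in it of small size. -/
def LocallyConnectedAt (d : ℕ) (x : ℂ) : Prop :=
  ∀ η : ℝ, 0 < η → ∃ δ : ℝ, 0 < δ ∧ ∀ y ∈ multibrotSet d, ∀ z ∈ multibrotSet d,
    ‖y - x‖ < δ → ‖z - x‖ < δ → ∃ S : Set ℂ, S ⊆ multibrotSet d ∧ IsCompact S ∧ IsConnected S ∧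
      y ∈ S ∧ z ∈ S ∧ S ⊆ ball x η

/-- The impression of `ζ`: all limits of `ψ (w n)` for sequences `w n → ζ` with `|w n| > 1`. -/
def impression (ψ : ℂ → ℂ) (ζ : ℂ) : Set ℂ := {c | MapClusterPt c (𝓝[{w | 1 < ‖w‖}] ζ) ψ}

/-- `x` is in some impression, and all impressions which contain `x` are trivial. -/
def TrivialImpressions (ψ : ℂ → ℂ) (x : ℂ) : Prop :=
  (∃ ζ : ℂ, ‖ζ‖ = 1 ∧ x ∈ impression ψ ζ) ∧
    ∀ ζ : ℂ, ‖ζ‖ = 1 → x ∈ impression ψ ζ → impression ψ ζ = {x}

/-- The angles `t ∈ (0, 2π]` of the external rays landing at distance less than `r` from `c₀`. Up to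
the factor `2π` its length is the harmonic measure (from infinity) of the disc of radius `r`. -/
def angles (ψ : ℂ → ℂ) (c₀ : ℂ) (r : ℝ) : Set ℝ :=
  {t | t ∈ Ioc 0 (2 * Real.pi) ∧ ∃ ζ ∈ ball c₀ r,
    Tendsto (fun ρ : ℝ => ψ (ρ * Complex.exp (t * Complex.I))) (𝓝[>] 1) (𝓝 ζ)}

/-- The harmonic measure, up to the factor `2π`. -/
noncomputable def harm (ψ : ℂ → ℂ) (c₀ : ℂ) (r : ℝ) : ℝ := (volume (angles ψ c₀ r)).toReal

/-- The maximum of Green's function of the Multibrot set over a disc: Green's function is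
`log ‖w‖` at the point `ψ w`. -/
noncomputable def green (ψ : ℂ → ℂ) (c₀ : ℂ) (r : ℝ) : ℝ :=
  sSup {x | ∃ w : ℂ, 1 < ‖w‖ ∧ ‖ψ w - c₀‖ ≤ r ∧ Real.log ‖w‖ = x}

/-- The derivative at `c₀` of the `n`-th iterate of the critical point as a function of the
parameter. -/
noncomputable def D' (d : ℕ) (c₀ : ℂ) (n : ℕ) : ℝ := ‖deriv (crit d n) c₀‖

/-- Flatness at all scales: the harmonic measure and Green's function decay faster than every power,
the derivatives with respect to the parameter grow subexponentially, and if `ψ` has a continuous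
extension `F` to the circle and `F ζ = c₀`, then the image under `F` of every arc of small radius `δ`
about `ζ` contains a point at distance at least `δ ^ α` from `c₀`, for every `α > 0`. -/
def Flat (d : ℕ) (ψ : ℂ → ℂ) (c₀ : ℂ) : Prop :=
  (∀ κ : ℝ, 0 < κ → ∀ᶠ r : ℝ in 𝓝[>] 0, harm ψ c₀ r < r ^ κ ∧ green ψ c₀ r < r ^ κ) ∧
  (∀ a : ℝ, 0 < a → ∀ᶠ n : ℕ in atTop, D' d c₀ n < Real.exp (a * n)) ∧
  ∀ F : ℂ → ℂ, ContinuousOn F {w : ℂ | 1 ≤ ‖w‖} → (∀ w : ℂ, 1 < ‖w‖ → F w = ψ w) →
    ∀ ζ : ℂ, ‖ζ‖ = 1 → F ζ = c₀ → ∀ α : ℝ, 0 < α → ∀ᶠ δ : ℝ in 𝓝[>] 0,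
      ∃ ξ : ℂ, ‖ξ‖ = 1 ∧ ‖ξ - ζ‖ ≤ δ ∧ δ ^ α ≤ ‖F ξ - F ζ‖

/-- **Theorem.** Let `d ≥ 2` and `a ^ (d - 1) = exp (2 π i / d) - 1`. In every disc about a boundary
point of the Multibrot set of degree `d` there are uncountably many boundary points which are limits
of towers of asymptotically perfect small copies, at which the Multibrot set is locally connected and
flat, and at which all impressions are trivial. -/
theorem result (d : ℕ) (hd : 2 ≤ d) (a : ℂ)
    (ha : a ^ (d - 1) = Complex.exp (2 * Real.pi * Complex.I / d) - 1) :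
    (∃ ψ : ℂ → ℂ, IsExteriorMap (multibrotSet d) ψ) ∧
    ∀ ψ : ℂ → ℂ, IsExteriorMap (multibrotSet d) ψ →
      ∀ p ∈ frontier (multibrotSet d), ∀ r : ℝ, 0 < r →
        ¬ {x : ℂ | x ∈ frontier (multibrotSet d) ∧ ‖x - p‖ < r ∧ Tower d a x ∧
          LocallyConnectedAt d x ∧ TrivialImpressions ψ x ∧ Flat d ψ x}.Countable := by
  obtain ⟨β, hβ⟩ := Pool.Agent.H713R2.exists_beta (d := d) hd
  refine ⟨⟨_, Pool.Agent.H713R2.exteriorMap_of_beta hβ⟩, ?_⟩
  intro ψ hψ p hp r hr hcount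
  refine Pool.Agent.H206.limits hd (a := a) ha hψ hp hr (hcount.mono ?_)
  rintro x ⟨hxp, u, hu⟩
  have hfine := hu.fineAt
  have hfr := Pool.Agent.H206.front_of_fine hfine
  have hMc := (Pool.Agent.H712R2.isCompact_multibrot hd).isClosed
  have hxM : x ∈ multibrotSet d := hMc.frontier_subset hfr
  have hsmall : ∀ (k : ℕ) (y : ℂ), y ∈ Pool.Agent.H206.KK d (u k).1 (u k).2.1 (u k).2.2.1 (u k).2.2.2 →
      ‖y - x‖ ≤ 2 / ((k : ℝ) + 1) := by
    intro k y hy
    obtain ⟨b, ρ, -, -, h3, h4, -⟩ := hu.fine k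
    have h5 := h4 hy
    have h6 := h4 (hu.mem k)
    rw [mem_ball, dist_eq_norm] at h5 h6
    have h7 : ‖y - x‖ ≤ ‖y - b‖ + ‖x - b‖ := by
      have e : y - x = (y - b) - (x - b) := by ring
      rw [e]
      exact norm_sub_le _ _
    have h8 : 2 / ((k : ℝ) + 1) = 1 / ((k : ℝ) + 1) + 1 / ((k : ℝ) + 1) := by ring
    linarith
  refine ⟨hfr, hxp, ?_, ?_, ⟨Pool.Agent.H206.exists_imp hψ hfr hMc, ?_⟩, ?_⟩
  · refine ⟨fun k => (u k).1, fun k => (u k).2.1, fun k => (u k).2.2.1, fun k => (u k).2.2.2,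
      fun k => ⟨hu.dvd k, hu.lt k⟩, fun k => ?_, fun k => ⟨hu.mem k, hu.sub k⟩, ?_, ?_⟩
    · obtain ⟨h1, h2, h3, h4, h5⟩ := hu.perf k
      exact ⟨h1, h2, h3, h4, h5⟩
    · refine Set.eq_singleton_iff_unique_mem.2 ⟨mem_iInter.2 hu.mem, fun y hy => ?_⟩
      have hy' := mem_iInter.1 hy
      by_contra hne
      have h0 : 0 < ‖y - x‖ := norm_pos_iff.2 (sub_ne_zero.2 hne)
      obtain ⟨k, hk⟩ := exists_nat_gt (2 / ‖y - x‖)
      have h1 := hsmall k y (hy' k)
      rw [div_lt_iff₀ h0] at hk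
      rw [le_div_iff₀ (by positivity)] at h1
      nlinarith
    · rw [tendsto_iff_norm_sub_tendsto_zero]
      refine squeeze_zero (fun k => norm_nonneg _) (fun k => hu.tip k) ?_
      exact tendsto_one_div_add_atTop_nhds_zero_nat
  · exact fun η hη => Pool.Agent.H206.lc_of_fine hxM hfine hη
  · exact fun ζ hζ hx => Pool.Agent.H206.imp_of_fine hfine hζ hx
  · exact Pool.Agent.Y736.RN.not_big_flat hd hψ hxM (hu.notBig hd hψ)

end Pool.Agent.Results.MP_fcb70f_an.TipTowers
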